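import Pool.Agent.Q139.Mal.Ext
import Pool.Agent.Q139.Mal.Univ

set_option autoImplicit false

/-!
# MP_1f2de8_an: the coefficient problem for alpha-convex functions, `0 < α < 1`

We determine `A_n(α) = sup {|a_n| : f ∈ M(α)}` for all `n ≥ 2` and all `0 < α < 1`: it is the
`n`-th coefficient of the function `z (∑ h_k z^k)^α`, `h_k = (2/α)_k / (k! (1 + α k))`, which itself
belongs to `M(α)`.

Idea of the proof. Write `q = z f'/f`, `y = 1/q`, `p = q + α z q'/q` (so `Re p > 0`), and `q₀`, `Y`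
for the case `p₀ = (1+z)/(1-z)`; so `α z y' + p y = 1`, `α z Y' + p₀ Y = 1`.

* `pos_of_ode`: `Re y > 0`. `YData.N_pos`: `N = (p₀ - q₀)/(z p₀')` has positive real part on the
  disc (boundary computation and maximum principle). Hence `YData.inj`: `Y` is univalent.
* `YData.sub`: `y = Y ∘ ω` with `|ω(z)| ≤ |z|`. If not, Jack's lemma gives a point `z₁` with
  `ξ = ω(z₁)`, `|ξ| > |z₁|`, and `(p(z₁) - p₀(ξ)) (1-ξ)²/(2ξ) = (k-1) N(ξ)` with `k ≥ 1`, whose real
  part is `≥ 0`, while `p(z₁) = p₀(η)` with `|η| ≤ |z₁| < |ξ|` makes it negative.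
* `AC.factor`: `f' = B² q^(1-α)` where all Taylor coefficients of `B` have modulus at most one.
* `toeplitz`: for such `B` and analytic `Ψ` with `|Ψ| ≤ 1`, `|[z^n] B² Ψ| ≤ n + 1`.
* `comp_bound`, `pw_Qr_nn`: `q^(1-α) = q₀^(1-α) ∘ ω` and `q₀^(1-α)` has nonnegative Taylor
  coefficients `b_k`, so `|[z^m] f'| ≤ ∑ b_k (m-k+1) = [z^m] (1-z)^(-2) q₀^(1-α)`, which is the
  coefficient of the extremal function.
-/

namespace Pool.Agent.Results.MP_1f2de8_an.SharpBounds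

open Complex Metric

/-- The class `S`: `f` is analytic and injective on the open unit disc, `f(0) = 0`, `f'(0) = 1`. -/
structure ClassS (f : ℂ → ℂ) : Prop where
  diff : DifferentiableOn ℂ f (ball 0 1)
  inj : Set.InjOn f (ball 0 1)
  zero : f 0 = 0
  one : deriv f 0 = 1

/-- The class `M(α)` of alpha-convex functions: `f ∈ S` and
`Re [α (1 + z f''(z)/f'(z)) + (1-α) z f'(z)/f(z)] > 0` for `0 < |z| < 1` (the value at `z = 0` is
`1`). The denominators do not vanish, see `remark_ne`. -/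
def AlphaConvex (α : ℝ) (f : ℂ → ℂ) : Prop :=
  ClassS f ∧ ∀ z ∈ ball (0 : ℂ) 1, z ≠ 0 →
    0 < (α * (1 + z * deriv (deriv f) z / deriv f z) + (1 - α) * (z * deriv f z / f z)).re

/-- The `n`-th Taylor coefficient of `f` at `0`. -/
noncomputable def coef (f : ℂ → ℂ) (n : ℕ) : ℂ := iteratedDeriv n f 0 / (n.factorial : ℂ)

/-- `h_k(α) = (2/α) (2/α + 1) ⋯ (2/α + k - 1) / (k! (1 + α k))`. -/
noncomputable def h (α : ℝ) (k : ℕ) : ℝ :=
  (∏ j ∈ Finset.range k, (2 / α + j) / (j + 1)) / (1 + α * k)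

/-- The sequence `w_0 = 1`,
`(n+1) w_{n+1} = ∑_{k=0}^{n} (α (k+1) - (n-k)) h_{k+1}(α) w_{n-k}`. -/
noncomputable def w (α : ℝ) : ℕ → ℝ
  | 0 => 1
  | n + 1 => (∑ k : Fin (n + 1), (α * ((k : ℕ) + 1 : ℝ) - ((n : ℝ) - (k : ℕ))) *
      h α ((k : ℕ) + 1) * w α (n - (k : ℕ))) / (n + 1)
decreasing_by omega

/-- `A_n(α) = w_{n-1}(α)`. -/
noncomputable def A (α : ℝ) (n : ℕ) : ℝ := w α (n - 1)

/-- A remark on the definition of `M(α)`: for `f ∈ S` the denominators do not vanish. -/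
theorem remark_ne (f : ℂ → ℂ) (hf : ClassS f) :
    (∀ z ∈ ball (0 : ℂ) 1, z ≠ 0 → f z ≠ 0) ∧ ∀ z ∈ ball (0 : ℂ) 1, deriv f z ≠ 0 := by
  refine ⟨?_, fun z hz => Q139.Mal.deriv_ne_of_inj isOpen_ball hf.diff hf.inj hz⟩
  intro z hz hz0 h0
  apply hz0
  exact hf.inj hz (mem_ball_self one_pos) (by rw [h0, hf.zero])

/-- A remark: `w` is the sequence of coefficients of the formal power `(∑ h_k z^k)^α`. -/
theorem w_eq (α : ℝ) (n : ℕ) : w α n = PowerSeries.coeff n (Q139.Mal.wr α) := by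
  induction n using Nat.strong_induction_on with
  | _ n ih =>
    cases n with
    | zero =>
      rw [PowerSeries.coeff_zero_eq_constantCoeff_apply, Q139.Mal.wr0, w]
    | succ n =>
      have h1 := Q139.Mal.wr_rec (α := α) n
      have hn : ((n : ℝ) + 1) ≠ 0 := by positivity
      rw [w, div_eq_iff hn, mul_comm (PowerSeries.coeff (n+1) _), h1,
        Fin.sum_univ_eq_sum_range (fun k => (α * ((k : ℕ) + 1 : ℝ) - ((n : ℝ) - (k : ℕ))) *
          h α (k + 1) * w α (n - k)) (n + 1)]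
      apply Finset.sum_congr rfl
      intro k hk
      rw [Finset.mem_range] at hk
      rw [ih (n - k) (by omega)]
      rfl

lemma toAC {α : ℝ} {f : ℂ → ℂ} (hf : AlphaConvex α f) : Q139.Mal.AC α f :=
  ⟨hf.1.diff, hf.1.zero, hf.1.one, (remark_ne f hf.1).1, (remark_ne f hf.1).2, hf.2⟩

theorem result (α : ℝ) (h0 : 0 < α) (h1 : α < 1) :
    (∀ n, 2 ≤ n → IsGreatest {x : ℝ | ∃ f, AlphaConvex α f ∧ x = ‖coef f n‖} (A α n)) ∧
    ∃ k l : ℂ → ℂ, AlphaConvex α k ∧ (∀ n, 1 ≤ n → coef k n = (A α n : ℂ)) ∧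
      DifferentiableOn ℂ l (ball 0 1) ∧ l 0 = 0 ∧
      (∀ z ∈ ball (0 : ℂ) 1, k z = z * exp (l z)) ∧
      ∀ j, coef (fun z => exp (l z / α)) j = (h α j : ℂ) := by
  obtain ⟨k, l, hk, hinj, hco, hl, hh⟩ := Q139.Mal.exists_extremal_ac h0
  have hkM : AlphaConvex α k := ⟨⟨hk.diff, hinj, hk.zero, hk.one⟩, hk.re⟩
  have hkA : ∀ n, 1 ≤ n → coef k n = (A α n : ℂ) := by
    intro n hn
    obtain ⟨m, rfl⟩ : ∃ m, n = m + 1 := ⟨n - 1, by omega⟩
    rw [A, Nat.add_sub_cancel, w_eq]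
    exact hco m
  have hbd : ∀ f, AlphaConvex α f → ∀ n, 1 ≤ n → ‖coef f n‖ ≤ A α n := by
    intro f hf n hn
    obtain ⟨m, rfl⟩ : ∃ m, n = m + 1 := ⟨n - 1, by omega⟩
    rw [A, Nat.add_sub_cancel, w_eq]
    exact Q139.Mal.main_bound_ac h0 h1 (toAC hf) m
  refine ⟨?_, k, l, hkM, hkA, hl.1, hl.2.1, hl.2.2, ?_⟩
  · intro n hn
    constructor
    · refine ⟨k, hkM, ?_⟩
      have h2 := hbd k hkM n (by omega)
      rw [hkA n (by omega), norm_real, Real.norm_eq_abs] at h2 ⊢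
      rw [abs_of_nonneg ((abs_nonneg _).trans h2)]
    · rintro x ⟨f, hf, rfl⟩
      exact hbd f hf n (by omega)
  · intro j
    have h2 := hh j
    have e : (fun z => exp (((1 / α : ℝ) : ℂ) * l z)) = fun z => exp (l z / α) := by
      funext z
      congr 1
      push_cast
      ring
    rw [e] at h2
    exact h2

end Pool.Agent.Results.MP_1f2de8_an.SharpBounds
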